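import Pool.Agent.W659.FK.Stm

set_option autoImplicit false

namespace Pool.Agent.W346.FK

open NumberField Pool.Agent.W659.FK

lemma charP_of_card (p : ℕ) [hp : Fact p.Prime] (k : Type) [Field k] [Fintype k]
    (hk : Fintype.card k = p ∨ Fintype.card k = p ^ 2) : CharP k p := by
  obtain ⟨q, hq⟩ := CharP.exists k
  obtain ⟨n, hqp, hn⟩ := FiniteField.card k q
  have h1 : q ∣ p := by
    have h2 : q ∣ Fintype.card k := by
      rw [hn]
      exact dvd_pow_self q n.pos.ne'
    rcases hk with h3 | h3
    · rwa [h3] at h2
    · rw [h3] at h2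
      exact hqp.dvd_of_dvd_pow h2
  have h2 : q = p := (Nat.prime_dvd_prime_iff_eq hqp hp.out).1 h1
  rw [← h2]
  exact hq

/-- preimages under surjective homomorphisms of finite groups -/
lemma preimage_card {A B : Type} [AddCommGroup A] [AddCommGroup B] [Fintype A] [Fintype B]
    (f : A →+ B) (hf : Function.Surjective f) (S : Set B) (θ : ℝ)
    (hS : ((S.ncard : ℕ) : ℝ) ≤ θ * (Fintype.card B : ℝ)) :
    (((f ⁻¹' S).ncard : ℕ) : ℝ) ≤ θ * (Fintype.card A : ℝ) := by
  classical
  set m : ℕ := (Finset.univ.filter fun a : A => f a = 0).card with hm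
  have hfib : ∀ y : B, (Finset.univ.filter fun a : A => f a = y).card = m := by
    intro y
    obtain ⟨a₀, rfl⟩ := hf y
    refine Finset.card_bij (fun a _ => a - a₀) ?_ ?_ ?_
    · intro a ha
      simp only [Finset.mem_filter, Finset.mem_univ, true_and] at ha ⊢
      rw [map_sub, ha, sub_self]
    · intro a _ b _ h
      exact sub_left_injective h
    · intro b hb
      simp only [Finset.mem_filter, Finset.mem_univ, true_and] at hb
      refine ⟨b + a₀, ?_, by simp⟩
      simp only [Finset.mem_filter, Finset.mem_univ, true_and]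
      rw [map_add, hb, zero_add]
  have h1 : ∀ T : Finset B, (Finset.univ.filter fun a : A => f a ∈ T).card = T.card * m := by
    intro T
    rw [Finset.card_eq_sum_card_fiberwise (f := f) (t := T)]
    · have h2 : ∀ y ∈ T, ((Finset.univ.filter fun a : A => f a ∈ T).filter
          fun a => f a = y).card = m := by
        intro y hy
        rw [← hfib y]
        congr 1
        ext a
        simp only [Finset.mem_filter, Finset.mem_univ, true_and]
        constructor
        · exact fun h => h.2
        · intro h
          exact ⟨by rw [h]; exact hy, h⟩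
      rw [Finset.sum_congr rfl h2, Finset.sum_const, smul_eq_mul]
    · intro a ha
      simpa using ha
  have h2 : Fintype.card A = Fintype.card B * m := by
    have h3 := h1 Finset.univ
    rw [Finset.card_univ] at h3
    rw [← h3]
    simp
  have h3 : (f ⁻¹' S).ncard = S.ncard * m := by
    have h4 := h1 S.toFinset
    rw [Set.ncard_eq_toFinset_card' S, ← h4, Set.ncard_eq_toFinset_card' (f ⁻¹' S)]
    congr 1
    ext a
    simp
  rw [h3, h2]
  push_cast
  rw [← mul_assoc]
  exact mul_le_mul_of_nonneg_right hS (Nat.cast_nonneg m)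

theorem main : S_PRE := by
  intro K _ _ n N ω p hp k _ _ hk φ hφ Ω θ hΩ
  haveI : CharP k p := charP_of_card p k hk
  letI : Algebra (ZMod p) k := ZMod.algebra k p
  let Λ : (Fin n × Fin N → ZMod p) →+ (Fin n → k) :=
    { toFun := fun c i => ∑ j, algebraMap (ZMod p) k (c (i, j)) * φ (ω j)
      map_zero' := by
        funext i
        simp
      map_add' := by
        intro c d
        funext i
        simp only [Pi.add_apply, map_add, add_mul, Finset.sum_add_distrib] }
  have hΛ : ∀ (c : Fin n × Fin N → ℤ) (i : Fin n), Λ (fun s => (c s : ZMod p)) i =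
      φ (∑ j, c (i, j) • ω j) := by
    intro c i
    show ∑ j, algebraMap (ZMod p) k ((c (i, j) : ZMod p)) * φ (ω j) = _
    rw [map_sum]
    refine Finset.sum_congr rfl fun j _ => ?_
    rw [map_intCast, zsmul_eq_mul, map_mul, map_intCast]
  have hsurj : Function.Surjective Λ := by
    intro y
    choose x hx using fun i => hφ (y i)
    refine ⟨fun s => ((ω.repr (x s.1) s.2 : ℤ) : ZMod p), ?_⟩
    funext i
    rw [hΛ (fun s => ω.repr (x s.1) s.2) i]
    simp only
    rw [ω.sum_repr (x i), hx]
  refine ⟨Λ ⁻¹' Ω, ?_, ?_⟩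
  · have h1 := preimage_card Λ hsurj Ω θ (by
      rw [Fintype.card_fun, Fintype.card_fin]
      push_cast
      exact hΩ)
    rw [Fintype.card_fun, ZMod.card] at h1
    push_cast at h1 ⊢
    exact h1
  · intro c hc
    show Λ (fun s => (c s : ZMod p)) ∈ Ω
    have h1 : Λ (fun s => (c s : ZMod p)) = fun i => φ (∑ j, c (i, j) • ω j) := funext (hΛ c)
    rw [h1]
    exact hc

end Pool.Agent.W346.FK
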